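import Pool.Agent.Lib.helper3.Perc

namespace Pool.Agent.H.MP_d2b88b_pr

open Finset Pool.Agent.Lib.helper3.Perc

def r (n : ℕ) (j : ℤ) : ℕ := if 0 ≤ j then n.choose j.toNat else 0

lemma r_succ (n : ℕ) (j : ℤ) : r (n + 1) (j + 1) = r n (j + 1) + r n j := by
  unfold r
  rcases lt_trichotomy j (-1) with h | rfl | h
  · rw [if_neg (by omega), if_neg (by omega), if_neg (by omega)]
  · simp
  · obtain ⟨k, rfl⟩ := Int.eq_ofNat_of_zero_le (show 0 ≤ j by omega)
    rw [if_pos (by omega), if_pos (by omega), if_pos (by omega), Int.toNat_natCast_add_one,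
      Int.toNat_natCast, Nat.choose_succ_succ', add_comm]

noncomputable def q (m : ℕ) (z : ℤ) : ℝ := r (2 * m) (m + z) / 4 ^ m

lemma q_nonneg (m : ℕ) (z : ℤ) : 0 ≤ q m z := by unfold q; positivity

lemma q_succ (m : ℕ) (z : ℤ) : 4 * q (m + 1) z = q m (z + 1) + 2 * q m z + q m (z - 1) := by
  have h1 := r_succ (2 * m + 1) (m + z)
  have h2 := r_succ (2 * m) (m + z)
  have h3 := r_succ (2 * m) (m + z - 1)
  rw [sub_add_cancel] at h3
  simp only [q]
  rw [show 2 * (m + 1) = 2 * m + 1 + 1 by ring, show ((m + 1 : ℕ) : ℤ) + z = m + z + 1 by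
    push_cast; ring, h1, h2, h3, ← add_assoc, ← add_sub_assoc]
  push_cast
  field_simp
  ring

lemma q_zero (m : ℕ) : q m 0 ^ 2 ≤ 1 / (2 * m + 1) := by
  have e : ∀ m : ℕ, q m 0 = m.centralBinom / 4 ^ m := fun m => by
    simp [q, r, Nat.centralBinom]
  induction m with
  | zero => simp [e]
  | succ m ih =>
    have h : ((m + 1 : ℕ) : ℝ) * (m + 1).centralBinom = 2 * (2 * m + 1) * m.centralBinom := by
      exact_mod_cast Nat.succ_mul_centralBinom_succ m
    have : q (m + 1) 0 = (2 * m + 1) / (2 * m + 2) * q m 0 := by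
      rw [e, e]
      push_cast at h
      field_simp
      linear_combination 2 * 4 ^ m * h
    rw [this, mul_pow]
    refine (mul_le_mul_of_nonneg_left ih (by positivity)).trans ?_
    push_cast
    field_simp
    nlinarith

noncomputable def g (n : ℕ) (z : Fin 8 → ℤ) : ℝ := ∑ m ∈ range n, ∏ i, q m (z i)

lemma g_nonneg (n : ℕ) (z : Fin 8 → ℤ) : 0 ≤ g n z :=
  sum_nonneg fun _ _ => prod_nonneg fun _ _ => q_nonneg _ _

lemma g_zero (n : ℕ) : g n 0 ≤ 2 := by
  have : g n 0 ≤ 2 - 2 / (n + 1) := by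
    induction n with
    | zero => simp [g]
    | succ n ih =>
      rw [g, sum_range_succ, ← g]
      simp only [Pi.zero_apply, prod_const, card_univ, Fintype.card_fin]
      have h1 := pow_le_pow_left₀ (sq_nonneg _) (q_zero n) 4
      have h2 : (1 / (2 * n + 1) : ℝ) ^ 4 ≤ 2 / (n + 1) - 2 / (n + 1 + 1) := by
        have : (0 : ℝ) ≤ n := n.cast_nonneg
        field_simp
        nlinarith [pow_nonneg this 3, pow_nonneg this 4]
      rw [← pow_mul] at h1
      push_cast
      linarith
  exact this.trans (sub_le_self _ (by positivity))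

def b (c : Bool) : ℤ := if c then 1 else 0

lemma g_succ (n : ℕ) (z : Fin 8 → ℤ) : ∑ s : Fin 8 → Bool, ∑ s' : Fin 8 → Bool,
    g n (fun i => z i + b (s i) - b (s' i)) = 4 ^ 8 * (g (n + 1) z - ∏ i, q 0 (z i)) := by
  rw [g, sum_range_succ', add_sub_cancel_right, mul_sum]
  simp only [g]
  rw [sum_congr rfl fun s _ => sum_comm, sum_comm]
  refine sum_congr rfl fun m _ => ?_
  rw [sum_congr rfl fun s _ => (Fintype.prod_sum fun i c => q m (z i + b (s i) - b c)).symm,
    ← Fintype.prod_sum fun i c => ∑ c', q m (z i + b c - b c'), ← Fin.prod_const, ← prod_mul_distrib]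
  refine prod_congr rfl fun i _ => ?_
  simp [q_succ, b]
  ring_nf

abbrev V := Fin 9 → ℤ

def up (σ : ℤ) (s : Fin 8 → Bool) : V := σ • Fin.cons 1 fun i => b (s i)

lemma lev {σ : ℤ} (hσ : σ * σ = 1) (l : List (Fin 8 → Bool)) :
    ∀ x : V, ∀ e ∈ E (up σ) x l, ∀ v ∈ e, σ * x 0 ≤ σ * v 0 := by
  induction l with
  | nil => simp [E]
  | cons s l ih =>
    intro x e he v hv
    have h : σ * (x + up σ s) 0 = σ * x 0 + 1 := by simp [up, mul_add, hσ]
    rcases mem_insert.mp he with rfl | he
    · rcases Sym2.mem_iff.mp hv with rfl | rfl <;> omega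
    · have := ih _ e he v hv
      omega

lemma notin {σ : ℤ} (hσ : σ * σ = 1) {x y w : V} (h : x 0 = y 0) (s l) :
    s(x, w) ∉ E (up σ) (y + up σ s) l := fun he => by
  have := lev hσ l _ _ he x (Sym2.mem_mk_left _ _)
  simp [up, mul_add, hσ, h] at this

lemma card_E {σ : ℤ} (hσ : σ * σ = 1) (l : List (Fin 8 → Bool)) :
    ∀ x : V, (E (up σ) x l).card = l.length := by
  induction l with
  | nil => simp [E]
  | cons s l ih => intro x; rw [E, card_insert_of_notMem (notin hσ rfl s l), ih]; rfl

lemma sec {σ : ℤ} (hσ : σ * σ = 1) (n : ℕ) : ∀ x y : V, x 0 = y 0 →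
    ∑ l ∈ L _ n, ∑ l' ∈ L _ n, (1 / 20 : ℝ) ^ (E (up σ) x l ∪ E (up σ) y l').card ≤
      (256 / 20) ^ (2 * n) * (1 + g n (fun i => σ * (x i.succ - y i.succ)) / 10) := by
  induction n with
  | zero => simp [L, E, g]
  | succ n ih =>
    intro x y h
    have k : ∀ s s', ∑ l ∈ L _ n, ∑ l' ∈ L _ n,
        (1 / 20 : ℝ) ^ (E (up σ) x (s :: l) ∪ E (up σ) y (s' :: l')).card ≤
        (256 / 20) ^ (2 * n) / 400 * (1 + g n (fun i => σ * (x i.succ - y i.succ) + b (s i) -
          b (s' i)) / 10 + if s = s' then 19 * (6 / 5) * ∏ i : Fin 8, q 0 (σ * (x i.succ - y i.succ))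
          else 0) := fun s s' => by
      have h1 := ih (x + up σ s) (y + up σ s') (by simp [up, h])
      have h2 : (fun i : Fin 8 => σ * ((x + up σ s) i.succ - (y + up σ s') i.succ)) =
          fun i => σ * (x i.succ - y i.succ) + b (s i) - b (s' i) := funext fun i => by
        simp only [up, Pi.add_apply, Pi.smul_apply, Fin.cons_succ, smul_eq_mul]
        linear_combination (b (s i) - b (s' i)) * hσ
      rw [h2] at h1
      have h3 : ∀ l l', s(x, x + up σ s) ∉ E (up σ) (x + up σ s) l ∪ E (up σ) (y + up σ s') l' :=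
        fun l l' => by simp [notin hσ rfl, notin hσ h]
      have h4 : ∀ l l', s(y, y + up σ s') ∉ E (up σ) (x + up σ s) l ∪ E (up σ) (y + up σ s') l' :=
        fun l l' => by simp [notin hσ rfl, notin hσ h.symm]
      simp only [E, insert_union, union_insert]
      by_cases e : s(y, y + up σ s') = s(x, x + up σ s)
      · obtain ⟨rfl, rfl⟩ : y = x ∧ s' = s := by
          rcases Sym2.eq_iff.mp e with ⟨rfl, e⟩ | ⟨e, -⟩
          · refine ⟨rfl, funext fun i => ?_⟩
            have := congrFun e i.succ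
            have h0 : σ ≠ 0 := by rintro rfl; simp at hσ
            revert this
            cases hs : s i <;> cases hs' : s' i <;> simp [up, b, hs, hs', h0]
          · have := congrFun e 0
            simp [up, h] at this
            simp [this] at hσ
        simp only [insert_idem, card_insert_of_notMem (h3 _ _), pow_succ, ← sum_mul]
        have h5 := g_zero n
        have h6 : (0 : ℝ) < (256 / 20) ^ (2 * n) := by positivity
        simp only [sub_self, mul_zero, add_sub_cancel_right, if_true, prod_const, q, r] at h1 ⊢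
        rw [show (fun _ : Fin 8 => (0 : ℤ)) = 0 from rfl] at h1 ⊢
        norm_num at h1 ⊢
        nlinarith
      · simp only [card_insert_of_notMem (show _ ∉ insert _ _ from fun h => (mem_insert.mp h).elim
          e (h4 _ _)), card_insert_of_notMem (h3 _ _), pow_succ, ← sum_mul]
        have : (0 : ℝ) ≤ (256 / 20) ^ (2 * n) * if s = s' then
            19 * (6 / 5) * ∏ i : Fin 8, q 0 (σ * (x i.succ - y i.succ)) else 0 := by
          have := prod_nonneg fun (i : Fin 8) (_ : i ∈ univ) => q_nonneg 0 (σ * (x i.succ - y i.succ))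
          positivity
        linarith
    simp only [sum_L]
    refine (sum_le_sum fun s _ => sum_comm.trans_le (sum_le_sum fun s' _ => k s s')).trans ?_
    simp only [← mul_sum, sum_add_distrib, ← sum_div, g_succ, sum_ite_eq, mem_univ, if_true,
      sum_const, card_univ, Fintype.card_fun, Fintype.card_bool, Fintype.card_fin]
    have := prod_nonneg fun (i : Fin 8) (_ : i ∈ univ) => q_nonneg 0 (σ * (x i.succ - y i.succ))
    have h6 : (0 : ℝ) < (256 / 20) ^ (2 * n) := by positivity
    rw [mul_add 2, pow_add]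
    have h7 := mul_nonneg h6.le this
    generalize (256 / 20 : ℝ) ^ (2 * n) = K at h7 ⊢
    generalize ∏ i : Fin 8, q 0 (σ * (x i.succ - y i.succ)) = Q at h7 ⊢
    norm_num
    nlinarith

end Pool.Agent.H.MP_d2b88b_pr
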