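import Pool.Agent.H.MP_d2b88b_pr.A

namespace Pool.Agent.H.MP_d2b88b_pr

open Finset Pool.Agent.Lib.helper3.Perc MeasureTheory Filter

def cone (R : ℕ) (σ : ℤ) (x : V) : Prop := ∀ i : Fin 8, 0 ≤ σ * x i.succ ∧ σ * x i.succ ≤ σ * x 0 - R

def G (R : ℕ) : SimpleGraph V where
  Adj x y := ∑ i, |x i - y i| = 1 ∨ (x ≠ y ∧ (∀ i, |x i - y i| ≤ 1) ∧
    ((cone R 1 x ∧ cone R 1 y) ∨ (cone R (-1) x ∧ cone R (-1) y)))
  symm := ⟨fun x y h => by
    simp only [abs_sub_comm (y _)]
    tauto⟩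
  loopless := ⟨fun x h => by simp at h⟩

lemma adj_le {R : ℕ} {x y : V} (h : (G R).Adj x y) (i) : |x i - y i| ≤ 1 := by
  rcases h with h | h
  · exact h ▸ single_le_sum (f := fun i => |x i - y i|) (fun _ _ => abs_nonneg _) (mem_univ i)
  · exact h.2.1 i

lemma deg (R : ℕ) (v : V) : ((G R).neighborSet v).encard ≤ (3 ^ 9 : ℕ) := by
  refine (Set.encard_le_encard (t := (Fintype.piFinset fun i => Icc (v i - 1) (v i + 1) : Finset V))
    fun w hw => ?_).trans ?_
  · simp only [mem_coe, Fintype.mem_piFinset, mem_Icc]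
    intro i
    have := abs_le.mp (adj_le hw i)
    omega
  · rw [Set.encard_coe_eq_coe_finsetCard, Fintype.card_piFinset]
    simp [show ∀ a : ℤ, (a + 1 + 1 - (a - 1)).toNat = 3 from fun a => by omega]

def st (d : Fin 9 × Bool) : V := Pi.single d.1 (if d.2 then 1 else -1)

lemma sum_st (d : Fin 9 × Bool) (x : V) : ∑ i, |x i - (x + st d) i| = 1 := by
  rw [sum_eq_single d.1 (fun i _ h => by simp [st, h]) (by simp)]
  simp only [st, Pi.add_apply, Pi.single_eq_same]
  split_ifs <;> simp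

lemma toward {x y : V} (h : x ≠ y) : ∃ d, ∑ i, |(x + st d) i - y i| + 1 = ∑ i, |x i - y i| := by
  obtain ⟨i, hi⟩ := Function.ne_iff.mp h
  refine ⟨(i, decide (x i < y i)), ?_⟩
  rw [← add_sum_erase _ _ (mem_univ i), ← add_sum_erase _ (fun i => |x i - y i|) (mem_univ i),
    sum_congr rfl (g := fun j => |x j - y j|) fun j hj => by simp [st, ne_of_mem_erase hj]]
  simp only [st, Pi.add_apply, Pi.single_eq_same, decide_eq_true_eq, abs_eq_max_neg]
  split_ifs <;> omega

lemma walk (R n : ℕ) : ∀ x y : V, ∑ i, |x i - y i| = n → ∃ w : (G R).Walk x y, w.length = n := by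
  induction n with
  | zero =>
    intro x y h
    obtain rfl : x = y := funext fun i => by
      simpa [sub_eq_zero] using (sum_eq_zero_iff_of_nonneg fun _ _ => abs_nonneg _).mp h i (mem_univ i)
    exact ⟨.nil, rfl⟩
  | succ n ih =>
    intro x y h
    obtain ⟨d, hd⟩ := toward (x := x) (y := y) (by rintro rfl; simp at h; omega)
    obtain ⟨w, hw⟩ := ih (x + st d) y (by omega)
    exact ⟨.cons (Or.inl (sum_st d x)) w, by simp [hw]⟩

lemma walk' (R : ℕ) (x y : V) : ∃ w : (G R).Walk x y, (w.length : ℤ) = ∑ i, |x i - y i| := by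
  have h := Int.toNat_of_nonneg (sum_nonneg fun i (_ : i ∈ univ) => abs_nonneg (x i - y i))
  obtain ⟨w, hw⟩ := walk R _ x y h.symm
  exact ⟨w, by rw [hw, h]⟩

lemma conn (R : ℕ) : (G R).Connected := ⟨fun x y => ⟨(walk' R x y).choose⟩⟩

lemma qi (R : ℕ) (x y : V) : ∑ i, |x i - y i| ≤ 9 * ((G R).dist x y : ℤ) ∧
    ((G R).dist x y : ℤ) ≤ ∑ i, |x i - y i| := by
  constructor
  · obtain ⟨w, hw⟩ := (conn R).exists_walk_length_eq_dist x y
    rw [← hw]
    clear hw
    induction w with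
    | nil => simp
    | @cons u v z h w ih =>
      refine (sum_le_sum fun i _ => (abs_sub_le _ (v i) _).trans
        (add_le_add_left (adj_le h i) _)).trans ?_
      simp only [sum_add_distrib, SimpleGraph.Walk.length_cons]
      simp
      omega
  · obtain ⟨w, hw⟩ := walk' R x y
    exact hw ▸ Int.ofNat_le.mpr (SimpleGraph.dist_le w)

def o (R : ℕ) (σ : ℤ) : V := Fin.cons (σ * R) 0

lemma up_edge {R : ℕ} {σ : ℤ} (hσ : σ = 1 ∨ σ = -1) (l : List (Fin 8 → Bool)) :
    ∀ x, cone R σ x → ∀ e ∈ E (up σ) x l, e ∈ (G R).edgeSet := by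
  induction l with
  | nil => simp [E]
  | cons s l ih =>
    intro x hx e he
    have h : cone R σ (x + up σ s) := fun i => by
      have := hx i
      rcases hσ with rfl | rfl <;> simp [up, b] at this ⊢ <;> split_ifs <;> omega
    rcases mem_insert.mp he with rfl | he
    · refine Or.inr ⟨fun e => ?_, fun i => ?_, by rcases hσ with rfl | rfl <;> tauto⟩
      · have := congrFun e 0
        rcases hσ with rfl | rfl <;> simp [up] at this
      · rcases hσ with rfl | rfl <;> cases i using Fin.cases <;> simp [up, b] <;> split_ifs <;> simp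
    · exact ih _ h e he

noncomputable abbrev p : NNReal := 1 / 20

lemma hp : p ≤ 1 := by rw [← NNReal.coe_le_coe]; norm_num

abbrev O (R : ℕ) (ω : (G R).edgeSet → Bool) : SimpleGraph V := .fromEdgeSet (op (G R) ω)

lemma edge_op {R : ℕ} {ω : (G R).edgeSet → Bool} {e : Sym2 V} (h : e ∈ (O R ω).edgeSet) :
    e ∈ op (G R) ω := by
  rw [SimpleGraph.edgeSet_fromEdgeSet] at h
  exact h.1

lemma reach {R : ℕ} {σ : ℤ} (hσ : σ * σ = 1) (ω : (G R).edgeSet → Bool) (l : List (Fin 8 → Bool)) :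
    ∀ x, ω ∈ C (G R) (E (up σ) x l) → ∃ y, (O R ω).Reachable x y ∧ σ * y 0 = σ * x 0 + l.length := by
  induction l with
  | nil => exact fun x _ => ⟨x, .rfl, by simp⟩
  | cons s l ih =>
    intro x h
    obtain ⟨y, h1, h2⟩ := ih (x + up σ s) fun e he => h e (mem_insert_of_mem he)
    have h3 := h _ (mem_insert_self _ _)
    refine ⟨y, ((SimpleGraph.fromEdgeSet_adj _).mpr
      ⟨h3, ((G R).mem_edgeSet.mp h3.1).ne⟩).reachable.trans h1, ?_⟩
    simp [h2, up, mul_add, hσ]
    ring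

lemma surv (R : ℕ) {σ : ℤ} (hσ : σ = 1 ∨ σ = -1) : P (G R) p hp
    {ω | ¬ ((O R ω).connectedComponentMk (o R σ)).supp.Infinite} ≤ ENNReal.ofReal (1 / 5) := by
  have hσ2 : σ * σ = 1 := by rcases hσ with rfl | rfl <;> rfl
  let U : ℕ → Set ((G R).edgeSet → Bool) := fun n => ⋃ l ∈ L _ n, C (G R) (E (up σ) (o R σ) l)
  have h1 : ∀ n, P (G R) p hp (U n)ᶜ ≤ ENNReal.ofReal (1 / 5) := fun n => by
    have h := second (G R) p hp (L _ n) (E (up σ) (o R σ)) ((20 / 256) ^ n) fun l _ =>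
      up_edge hσ l _ fun i => by simp [o, ← mul_assoc, hσ2]
    have h2 := sec hσ2 n (o R σ) (o R σ) rfl
    rw [sum_congr rfl (g := fun _ => (p : ℝ) ^ n) fun l hl => by
      rw [card_E hσ2, (mem_L _ _).mp hl], sum_const, card_L] at h
    simp only [sub_self, mul_zero] at h2
    have h3 := g_zero n
    have h4 : ((20 / 256 : ℝ) ^ n) ^ 2 * (256 / 20) ^ (2 * n) = 1 := by
      rw [← pow_mul, mul_comm n, ← mul_pow]; norm_num
    have h5 : (20 / 256 : ℝ) ^ n * (256 ^ n * (1 / 20) ^ n) = 1 := by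
      rw [← mul_pow, ← mul_pow]; norm_num
    have h6 := mul_le_mul_of_nonneg_left h2 (sq_nonneg ((20 / 256 : ℝ) ^ n))
    rw [← mul_assoc, h4, show (fun _ : Fin 8 => (0 : ℤ)) = 0 from rfl] at h6
    rw [← ofReal_measureReal, probReal_compl_eq_one_sub
      ((L _ n).measurableSet_biUnion fun l _ => C_meas _ _)]
    refine ENNReal.ofReal_le_ofReal ?_
    simp only [Fintype.card_fun, Fintype.card_bool, Fintype.card_fin, nsmul_eq_mul] at h
    push_cast at h
    norm_num at h h5 h6 ⊢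
    nlinarith
  refine le_trans (measure_mono (t := ⋃ n, ⋂ m ≥ n, (U m)ᶜ) fun ω hω => ?_) ?_
  · obtain ⟨n, hn⟩ := ((Set.not_infinite.mp hω).image fun y => σ * y 0).bddAbove
    refine Set.mem_iUnion.mpr ⟨(n - σ * o R σ 0).toNat + 1, Set.mem_iInter₂.mpr fun m hm h => ?_⟩
    obtain ⟨l, hl, h⟩ := Set.mem_iUnion₂.mp h
    obtain ⟨y, h2, h3⟩ := reach hσ2 ω l _ h
    have := hn ⟨y, SimpleGraph.ConnectedComponent.sound h2.symm, rfl⟩
    rw [(mem_L _ _).mp hl] at h3
    simp only at this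
    omega
  · rw [Monotone.measure_iUnion fun a b h => Set.biInter_subset_biInter_left fun m hm => h.trans hm]
    exact iSup_le fun n => (measure_mono (Set.biInter_subset_of_mem le_rfl)).trans (h1 n)

lemma sep (R : ℕ) (ω : (G R).edgeSet → Bool) {u v : V} (w : (O R ω).Walk u v) (hw : w.IsTrail)
    (hv : cone R (-1) v) : (∃ x l, cone R 1 x ∧ ω ∈ C (G R) (E st x l) ∧
      (E st x l).card = l.length ∧ R ≤ l.length - x 0) ∨
    ∃ l, (∀ e ∈ E st u l, e ∈ w.edges) ∧ (E st u l).card = l.length ∧ R ≤ l.length - u 0 := by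
  induction w with
  | nil => exact Or.inr ⟨[], by simp [E], rfl, by have := hv 0; simp at this ⊢; omega⟩
  | @cons u u' v h w ih =>
    by_cases hu : cone R (-1) u
    · exact Or.inr ⟨[], by simp [E], rfl, by have := hu 0; simp at this ⊢; omega⟩
    obtain k | ⟨l, k1, k2, k3⟩ := ih hw.of_cons hv
    · exact Or.inl k
    by_cases hu' : cone R 1 u'
    · exact Or.inl ⟨u', l, hu', fun e he => edge_op (w.edges_subset_edgeSet (k1 e he)), k2, k3⟩
    have h1 : ∑ i, |u i - u' i| = 1 := by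
      rcases (G R).mem_edgeSet.mp h.1.1 with h | h <;> tauto
    obtain ⟨d, hd⟩ := toward h.ne
    obtain rfl : u + st d = u' := funext fun i => by
      simpa [sub_eq_zero] using (sum_eq_zero_iff_of_nonneg fun _ _ => abs_nonneg _).mp
        (show ∑ i, |(u + st d) i - u' i| = 0 by omega) i (mem_univ i)
    refine Or.inr ⟨d :: l, fun e he => ?_, ?_, ?_⟩
    · rcases mem_insert.mp he with rfl | he
      · simp
      · simp [k1 e he]
    · rw [E, card_insert_of_notMem fun he => ((SimpleGraph.Walk.isTrail_cons _ _).mp hw).2 (k1 _ he),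
        k2, List.length_cons]
    · have := abs_le.mp (adj_le (R := R) (Or.inl h1) 0)
      simp only [List.length_cons]
      push_cast
      omega

set_option maxHeartbeats 400000 in
lemma disc : ∃ R : ℕ, P (G R) p hp {ω | (O R ω).Reachable (o R 1) (o R (-1))} ≤
    ENNReal.ofReal (1 / 2) := by
  have s1 : Summable fun t : ℕ => ((t + 1 : ℕ) : ℝ) ^ 8 * (9 / 10) ^ (t + 1) :=
    (summable_nat_add_iff (f := fun t : ℕ => (t : ℝ) ^ 8 * (9 / 10) ^ t) 1).mpr
      (summable_pow_mul_geometric_of_norm_lt_one 8 (r := (9 / 10 : ℝ)) (by norm_num))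
  have s2 : Summable fun t : ℕ => (9 / 10 : ℝ) ^ t :=
    summable_geometric_of_lt_one (by norm_num) (by norm_num)
  obtain ⟨K, hK, hK'⟩ : ∃ K : ENNReal, K ≠ ⊤ ∧ K = (∑' t : ℕ, ENNReal.ofReal
      (((t + 1 : ℕ) : ℝ) ^ 8 * (9 / 10) ^ (t + 1))) * ∑' t : ℕ, ENNReal.ofReal ((9 / 10) ^ t) :=
    ⟨_, ENNReal.mul_ne_top s1.tsum_ofReal_ne_top s2.tsum_ofReal_ne_top, rfl⟩
  have h0 : Tendsto (fun R : ℕ => K * ENNReal.ofReal ((9 / 10) ^ R)) atTop (nhds (K * .ofReal 0)) :=
    ENNReal.Tendsto.const_mul (ENNReal.tendsto_ofReal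
      (tendsto_pow_atTop_nhds_zero_of_lt_one (by norm_num) (by norm_num))) (Or.inr hK)
  obtain ⟨R, hR, h1⟩ := ((h0.eventually (eventually_le_nhds (b := ENNReal.ofReal (1 / 2)) (by simp))).and
      (eventually_ge_atTop 1)).exists
  subst hK'
  refine ⟨R, le_trans (measure_mono (t := ⋃ t : ℕ, ⋃ j : ℕ,
    ⋃ y ∈ Fintype.piFinset fun _ : Fin 8 => Icc (0 : ℤ) t,
      ⋃ l ∈ (L _ (t + 1 + j + R)).filter fun l => (E st (Fin.cons (R + t) y) l).card = l.length,
        C (G R) (E st (Fin.cons (R + t) y) l)) fun ω ⟨w⟩ => ?_) (le_trans ?_ hR)⟩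
  · obtain ⟨x, l, k1, k2, k3, k4⟩ : ∃ x l, cone R 1 x ∧ ω ∈ C (G R) (E st x l) ∧
        (E st x l).card = l.length ∧ R ≤ l.length - x 0 := by
      obtain k | ⟨l, k1, k2, k3⟩ := sep R ω w.toPath.1 w.toPath.2.isTrail fun i => by simp [o]
      · exact k
      · exact ⟨_, l, fun i => by simp [o], fun e he =>
          edge_op (w.toPath.1.edges_subset_edgeSet (k1 e he)), k2, k3⟩
    have := k1 0
    obtain ⟨t, ht⟩ : ∃ t : ℕ, x 0 = R + t := ⟨(x 0 - R).toNat, by omega⟩
    have e : (Fin.cons ((R : ℤ) + t) (Fin.tail x) : V) = x := ht ▸ Fin.cons_self_tail x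
    simp only [Set.mem_iUnion, mem_filter, mem_L, Fintype.mem_piFinset, mem_Icc]
    exact ⟨t, l.length - (t + 1 + R), Fin.tail x, fun i => by
      have := k1 i
      simp only [Fin.tail]
      omega, l, ⟨by omega, e.symm ▸ k3⟩, e.symm ▸ k2⟩
  simp only [← ENNReal.tsum_mul_left, ← ENNReal.tsum_mul_right]
  refine (measure_iUnion_le _).trans (le_trans (ENNReal.tsum_le_tsum fun t =>
    (measure_iUnion_le _).trans (ENNReal.tsum_le_tsum fun j => ?_)) ENNReal.tsum_comm.le)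
  rw [← ENNReal.ofReal_mul (by positivity), ← ENNReal.ofReal_mul (by positivity),
    ← ofReal_measureReal (measure_ne_top _ _)]
  refine ENNReal.ofReal_le_ofReal ((measureReal_biUnion_finset_le _ _).trans
    ((sum_le_card_nsmul _ _ ((9 / 10) ^ (t + 1 + j + R)) fun y _ =>
      (measureReal_biUnion_finset_le _ _).trans ((sum_le_card_nsmul _ _ ((p : ℝ) ^ (t + 1 + j + R))
        fun l hl => ?_).trans ?_)).trans_eq ?_))
  · obtain ⟨h2, h3⟩ := mem_filter.mp hl
    exact (P_C_le _ _ _ _).trans_eq (by rw [h3, (mem_L _ _).mp h2])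
  · refine (nsmul_le_nsmul_left (by positivity) (card_filter_le _ _)).trans_eq ?_
    rw [card_L, nsmul_eq_mul, Nat.cast_pow, ← mul_pow]
    norm_num
  · simp [pow_add]
    ring

end Pool.Agent.H.MP_d2b88b_pr
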